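import Pool.Agent.LUB.Stmts

/-!
# Squad LUB, INV: units of `ℤ[θ]`
-/

set_option autoImplicit false

open Polynomial NumberField

namespace Pool.Agent.LUB.H53

/-- `F` generates the kernel of the evaluation at `θ`. -/
theorem dvd_of_aeval {K : Type} [Field K] [NumberField K] (θ : 𝓞 K) (F g : ℤ[X])
    (hF : F.Monic) (hFθ : aeval θ F = 0) (htop : IntermediateField.adjoin ℚ {(θ : K)} = ⊤)
    (hdeg : Module.finrank ℚ K = F.natDegree) (hg : aeval θ g = 0) : F ∣ g := by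
  rw [← Polynomial.modByMonic_eq_zero_iff_dvd hF]
  by_contra hr
  have h1 : aeval θ (g %ₘ F) = 0 := by
    have h2 := congrArg (aeval θ) (Polynomial.modByMonic_add_div g F)
    rw [map_add, map_mul, hFθ, zero_mul, add_zero, hg] at h2
    exact h2
  have h3 : aeval (θ : K) ((g %ₘ F).map (Int.castRingHom ℚ)) = 0 := by
    have h4 : aeval (θ : K) (g %ₘ F) = 0 := by
      have h5 : algebraMap (𝓞 K) K (aeval θ (g %ₘ F)) = aeval (algebraMap (𝓞 K) K θ) (g %ₘ F) :=
        (Polynomial.aeval_algebraMap_apply K θ (g %ₘ F)).symm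
      rw [h1, map_zero] at h5
      exact h5.symm
    have h6 : Int.castRingHom ℚ = algebraMap ℤ ℚ := rfl
    rw [h6, Polynomial.aeval_map_algebraMap]
    exact h4
  have h7 : (g %ₘ F).map (Int.castRingHom ℚ) ≠ 0 :=
    (Polynomial.map_ne_zero_iff (RingHom.injective_int (Int.castRingHom ℚ))).2 hr
  have h8 : (minpoly ℚ (θ : K)).natDegree ≤ ((g %ₘ F).map (Int.castRingHom ℚ)).natDegree :=
    Polynomial.natDegree_le_natDegree (minpoly.degree_le_of_ne_zero ℚ (θ : K) h7 h3)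
  have hint : IsIntegral ℚ (θ : K) := Algebra.IsIntegral.isIntegral _
  have h9 := IntermediateField.adjoin.finrank hint
  rw [htop, IntermediateField.finrank_top', hdeg] at h9
  rw [Polynomial.natDegree_map_eq_of_injective (RingHom.injective_int (Int.castRingHom ℚ))] at h8
  by_cases hF1 : F = 1
  · rw [hF1, Polynomial.modByMonic_one] at hr
    exact hr rfl
  · have h10 := Polynomial.natDegree_modByMonic_lt g hF hF1
    omega

/-- INV -/
theorem inv : InvStmt := by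
  intro K _ _ θ F u hF hFθ htop hdeg hu
  obtain ⟨A, hA⟩ : ∃ A : Subalgebra ℤ (𝓞 K), A = (aeval θ : ℤ[X] →ₐ[ℤ] 𝓞 K).range := ⟨_, rfl⟩
  have hint : Algebra.IsIntegral A (𝓞 K) := Algebra.IsIntegral.tower_top (R := ℤ)
  have hmem : aeval θ u ∈ A := by
    rw [hA]
    exact ⟨u, rfl⟩
  have hu2 : IsUnit (algebraMap A (𝓞 K) ⟨aeval θ u, hmem⟩) := hu
  have hu3 : IsUnit (⟨aeval θ u, hmem⟩ : A) := IsUnit.of_map (algebraMap A (𝓞 K)) _ hu2
  obtain ⟨v, hv⟩ := hu3.exists_right_inv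
  obtain ⟨v, hvm⟩ := v
  have hvm2 : v ∈ (aeval θ : ℤ[X] →ₐ[ℤ] 𝓞 K).range := hA ▸ hvm
  obtain ⟨a, ha⟩ := hvm2
  have hv2 : aeval θ u * v = 1 := congrArg Subtype.val hv
  have h1 : aeval θ (1 - u * a) = 0 := by
    have ha' : aeval θ a = v := ha
    rw [map_sub, map_one, map_mul, ha', hv2, sub_self]
  obtain ⟨b, hb⟩ := dvd_of_aeval θ F (1 - u * a) hF hFθ htop hdeg h1
  exact ⟨a, b, by rw [← hb]; ring⟩

end Pool.Agent.LUB.H53
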